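import Pool.Agent.U582.GV.Gau
import Mathlib.RingTheory.Nullstellensatz

/-!
# Heights and finite morphisms over function fields
-/

set_option autoImplicit false

namespace Pool.Agent.U582.GV

open MvPolynomial FF
open Pool.Agent.W603.LV Pool.Agent.W603.PV

section null

variable {F : Type} [Field F] {m M : ℕ}
  {W : Set (MvPolynomial (Fin (m + 1)) F)} {G : Fin (M + 1) → MvPolynomial (Fin (m + 1)) F}

/-- The Nullstellensatz for forms `G j` without common zero on `W`, over a field which need not be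
algebraically closed. -/
theorem null (h0 : ∀ y : Fin (m + 1) → AlgebraicClosure F, (∀ H ∈ W, aeval y H = 0) →
    (∀ j, aeval y (G j) = 0) → y = 0) (a : Fin (m + 1)) :
    ∃ (N : ℕ) (P : Fin (M + 1) → MvPolynomial (Fin (m + 1)) F),
      ∀ (L : Type) [Field L] [Algebra F L] (v : Fin (m + 1) → L), (∀ H ∈ W, aeval v H = 0) →
        v a ^ N = ∑ j, aeval v (P j) * aeval v (G j) := by
  classical
  have h1 : (X a : MvPolynomial (Fin (m + 1)) F) ∈ (Ideal.span (W ∪ Set.range G)).radical := by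
    rw [← vanishingIdeal_zeroLocus_eq_radical (K := AlgebraicClosure F), mem_vanishingIdeal_iff]
    intro x hx
    rw [mem_zeroLocus_iff] at hx
    have h2 := h0 x (fun H hH => hx _ (Ideal.subset_span (Or.inl hH)))
      (fun j => hx _ (Ideal.subset_span (Or.inr ⟨j, rfl⟩)))
    rw [aeval_X, h2]
    rfl
  obtain ⟨N, hN⟩ := Ideal.mem_radical_iff.1 h1
  rw [Ideal.span_union, Submodule.mem_sup] at hN
  obtain ⟨u, hu, v, hv, huv⟩ := hN
  obtain ⟨P, hP⟩ := (Ideal.mem_span_range_iff_exists_fun).1 hv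
  refine ⟨N, P, fun L _ _ x hx => ?_⟩
  have h3 : aeval x u = 0 := by
    have h4 : Ideal.span W ≤ RingHom.ker (aeval x :
        MvPolynomial (Fin (m + 1)) F →ₐ[F] L).toRingHom := by
      rw [Ideal.span_le]
      intro H hH
      exact hx H hH
    exact h4 hu
  have h5 := congrArg (aeval x) huv
  rw [map_add, h3, zero_add, ← hP, map_sum, map_pow, aeval_X] at h5
  rw [← h5]
  exact Finset.sum_congr rfl fun j _ => map_mul (aeval x) _ _

end null

variable {K : Type} [Field K] [IsAlgClosed K] [CharZero K]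
  {F : Type} [Field F] [Algebra K F] [IsFF K F] {m M e : ℕ}
  {W : Set (MvPolynomial (Fin (m + 1)) F)} {G : Fin (M + 1) → MvPolynomial (Fin (m + 1)) F}

omit [IsAlgClosed K] [CharZero K] in
theorem pht_finset {L : Type} [Field L] [Algebra K L] [IsFF K L] {n : ℕ} {x : Fin (n + 1) → L}
    (T : Finset (Place K L))
    (hT : ∀ P : Place K L, pord P x ≠ 0 → P ∈ T) : pht K x = -∑ P ∈ T, pord P x := by
  unfold pht
  rw [finsum_eq_sum_of_support_subset (s := T)]
  intro P hP
  exact Finset.mem_coe.2 (hT P hP)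

/-- Heights of the images of points under a finite morphism given by forms over a function field. -/
theorem cover_ht (hG : ∀ j, (G j).IsHomogeneous e)
    (h0 : ∀ y : Fin (m + 1) → AlgebraicClosure F, (∀ H ∈ W, aeval y H = 0) →
      (∀ j, aeval y (G j) = 0) → y = 0)
    (hW : ∀ H ∈ W, ∃ d, H.IsHomogeneous d) :
    ∃ B : ℕ, ∀ (L : Type) [Field L] [Algebra K L] [IsFF K L] [Algebra F L] [IsScalarTower K F L]
      [FiniteDimensional F L] (x : Fin (m + 1) → L), x ≠ 0 → (∀ H ∈ W, aeval x H = 0) →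
      (fun j => aeval x (G j)) ≠ 0 ∧
      e * pht K x ≤ pht K (fun j => aeval x (G j)) + B * Module.finrank F L := by
  classical
  choose N P hP using fun a => null h0 a
  -- the coefficients
  obtain ⟨I, hI⟩ : ∃ I : Finset F, I = Finset.univ.biUnion fun a => Finset.univ.biUnion fun j =>
    (P a j).support.image fun α => coeff α (P a j) := ⟨_, rfl⟩
  have hIm : ∀ a j α, coeff α (P a j) ≠ 0 → coeff α (P a j) ∈ I := by
    intro a j α hα
    rw [hI]
    exact Finset.mem_biUnion.2 ⟨a, Finset.mem_univ a, Finset.mem_biUnion.2 ⟨j, Finset.mem_univ j,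
      Finset.mem_image.2 ⟨α, mem_support_iff.2 hα, rfl⟩⟩⟩
  refine ⟨(∑ z ∈ I, hgt K z).toNat, fun L _ _ _ _ _ _ x hx hxW => ?_⟩
  have hsum0 : (0 : ℤ) ≤ ∑ z ∈ I, hgt K z := Finset.sum_nonneg fun z _ => hgt_nonneg z
  obtain ⟨μ, hμ⟩ : ∃ μ : Place K L → ℤ, μ = fun Q =>
    ∑ z ∈ I, max (-Q.ord (algebraMap F L z)) 0 := ⟨_, rfl⟩
  have hμ0 : ∀ Q, 0 ≤ μ Q := fun Q => by
    rw [hμ]
    exact Finset.sum_nonneg fun z _ => le_max_right _ _
  have hμc : ∀ Q a j α, Ge Q (-μ Q) (algebraMap F L (coeff α (P a j))) := by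
    intro Q a j α
    by_cases h1 : coeff α (P a j) = 0
    · left
      rw [h1, map_zero]
    · right
      have h2 := Finset.single_le_sum (f := fun z => max (-Q.ord (algebraMap F L z)) 0)
        (fun _ _ => le_max_right _ _) (hIm a j α h1)
      have h3 : -Q.ord (algebraMap F L (coeff α (P a j))) ≤ μ Q := by
        rw [hμ]
        exact (le_max_left _ _).trans h2
      omega
  -- local inequality
  have hloc : ∀ Q : Place K L, (fun j => aeval x (G j)) ≠ 0 ∧
      pord Q (fun j => aeval x (G j)) ≤ e * pord Q x + μ Q := by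
    intro Q
    obtain ⟨a, ha, ha'⟩ := exists_pord Q (Function.ne_iff.1 hx)
    obtain ⟨v, hv⟩ : ∃ v : Fin (m + 1) → L, v = fun j => (x a)⁻¹ * x j := ⟨_, rfl⟩
    have hva : v a = 1 := by
      rw [hv]
      exact inv_mul_cancel₀ ha
    have hvG : ∀ j, Ge Q 0 (v j) := by
      intro j
      have h0 : Ge Q (Q.ord (x a)⁻¹) (x a)⁻¹ := Or.inr le_rfl
      have h1 := h0.mul (ge_pord Q x j)
      rw [Q.ord_inv, ha'] at h1
      rw [hv]
      exact h1.mono (by omega)
    have hsc : ∀ (d : ℕ) (H : MvPolynomial (Fin (m + 1)) F), H.IsHomogeneous d →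
        aeval v H = ((x a)⁻¹) ^ d * aeval x H := fun d H hH => by
      rw [hv]
      exact Pool.Agent.U582.GK.aeval_smul hH _ _
    have hvW : ∀ H ∈ W, aeval v H = 0 := by
      intro H hH
      obtain ⟨d, hd⟩ := hW H hH
      rw [hsc d H hd, hxW H hH, mul_zero]
    have h1 := hP a L v hvW
    rw [hva, one_pow] at h1
    have hPv : ∀ j, Ge Q (-μ Q) (aeval v (P a j)) := by
      intro j
      rw [aeval_def, eval₂_eq']
      refine Ge.sum _ _ fun α _ => ?_
      have h2 : Ge Q (∑ _i : Fin (m + 1), (0 : ℤ)) (∏ i, v i ^ α i) :=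
        Ge.prod _ _ _ fun i _ => by
          have := (hvG i).pow (α i)
          rwa [mul_zero] at this
      rw [Finset.sum_const_zero] at h2
      have h3 := (hμc Q a j α).mul h2
      rwa [add_zero] at h3
    have h2 : ∃ j, aeval v (G j) ≠ 0 ∧ Q.ord (aeval v (G j)) ≤ μ Q := by
      by_contra hcon
      push Not at hcon
      have h3 : ∀ j, Ge Q (μ Q + 1) (aeval v (G j)) := by
        intro j
        by_cases h4 : aeval v (G j) = 0
        · exact Or.inl h4
        · exact Or.inr (by have := hcon j h4; omega)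
      have h4 : Ge Q 1 (1 : L) := by
        rw [h1]
        refine Ge.sum _ _ fun j _ => ?_
        have h5 := (hPv j).mul (h3 j)
        exact h5.mono (by omega)
      rcases h4 with h5 | h5
      · exact one_ne_zero h5
      · rw [Q.ord_one] at h5
        omega
    obtain ⟨j, h3, h4⟩ := h2
    rw [hsc e _ (hG j)] at h3 h4
    have h5 : aeval x (G j) ≠ 0 := right_ne_zero_of_mul h3
    refine ⟨fun h => h5 (congrFun h j), ?_⟩
    rw [Q.ord_mul (pow_ne_zero _ (inv_ne_zero ha)) h5, Q.ord_pow, Q.ord_inv, ha'] at h4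
    refine (pord_le Q (f := fun j => aeval x (G j)) (j := j) h5).trans ?_
    linarith
  have hGx : (fun j => aeval x (G j)) ≠ 0 := by
    by_contra h
    obtain ⟨j, hj⟩ := Function.ne_iff.1 hx
    have h1 := hP j L x hxW
    have h2 : ∀ i, aeval x (G i) = 0 := fun i => congrFun h i
    have h3 : x j ^ N j = 0 := by
      rw [h1]
      exact Finset.sum_eq_zero fun i _ => by rw [h2 i, mul_zero]
    exact pow_ne_zero _ hj h3
  refine ⟨hGx, ?_⟩
  -- summation
  obtain ⟨T₀, hT₀⟩ := exists_supp (k := K) Finset.univ x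
  obtain ⟨T₁, hT₁⟩ := exists_supp (k := K) Finset.univ fun j => aeval x (G j)
  obtain ⟨T₂, hT₂⟩ := exists_supp (k := K) I fun z => algebraMap F L z
  have h1 : ∀ Q : Place K L, pord Q x ≠ 0 → Q ∈ T₀ ∪ T₁ ∪ T₂ := by
    intro Q hQ
    obtain ⟨j, -, hj⟩ := exists_pord Q (Function.ne_iff.1 hx)
    exact Finset.mem_union_left _ (Finset.mem_union_left _
      (hT₀ j (Finset.mem_univ j) Q (by rw [hj]; exact hQ)))
  have h2 : ∀ Q : Place K L, pord Q (fun j => aeval x (G j)) ≠ 0 → Q ∈ T₀ ∪ T₁ ∪ T₂ := by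
    intro Q hQ
    obtain ⟨j, -, hj⟩ := exists_pord Q (Function.ne_iff.1 hGx)
    exact Finset.mem_union_left _ (Finset.mem_union_right _
      (hT₁ j (Finset.mem_univ j) Q (by rw [hj]; exact hQ)))
  have h3 : ∑ Q ∈ T₀ ∪ T₁ ∪ T₂, μ Q = (∑ z ∈ I, hgt K z) * Module.finrank F L := by
    rw [hμ, Finset.sum_comm, Finset.sum_mul]
    refine Finset.sum_congr rfl fun z hz => ?_
    rw [mul_comm, ← hgt_algebraMap (L := L) z]
    exact (hgt_finset _ _ fun Q hQ => Finset.mem_union_right _ (hT₂ z hz Q hQ)).symm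
  rw [pht_finset _ h1, pht_finset _ h2, Int.toNat_of_nonneg hsum0, ← h3]
  have h4 : ∑ Q ∈ T₀ ∪ T₁ ∪ T₂, pord Q (fun j => aeval x (G j)) ≤
      ∑ Q ∈ T₀ ∪ T₁ ∪ T₂, (e * pord Q x + μ Q) := Finset.sum_le_sum fun Q _ => (hloc Q).2
  rw [Finset.sum_add_distrib, ← Finset.mul_sum] at h4
  linarith

end Pool.Agent.U582.GV
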