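import Pool.Agent.U582.GV.Gau

/-!
# Heights of forms in finite extensions
-/

set_option autoImplicit false

namespace Pool.Agent.U582.GV

open MvPolynomial FF
open Pool.Agent.W603.LV Pool.Agent.W603.PV

variable {K : Type} [Field K] [IsAlgClosed K] [CharZero K]
  {F : Type} [Field F] [Algebra K F] [IsFF K F] {M : ℕ}

/-- the height of a form over `F` in finite extensions of `F` -/
theorem formHeight_map {H : MvPolynomial (Fin (M + 1)) F} (hH : H ≠ 0) :
    ∃ B : ℕ, ∀ (L : Type) [Field L] [Algebra K L] [IsFF K L] [Algebra F L] [IsScalarTower K F L]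
      [FiniteDimensional F L],
      formHeight K (map (algebraMap F L) H) ≤ B * Module.finrank F L := by
  classical
  obtain ⟨α, hα⟩ := MvPolynomial.ne_zero_iff.1 hH
  refine ⟨(∑ β ∈ H.support, hgt K (coeff β H / coeff α H)).toNat, fun L _ _ _ _ _ _ => ?_⟩
  have hsum0 : (0 : ℤ) ≤ ∑ β ∈ H.support, hgt K (coeff β H / coeff α H) :=
    Finset.sum_nonneg fun z _ => hgt_nonneg _
  obtain ⟨c, hc⟩ : ∃ c : L, c = algebraMap F L (coeff α H) := ⟨_, rfl⟩
  have hc0 : c ≠ 0 := by
    rw [hc, Ne, map_eq_zero]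
    exact hα
  obtain ⟨H₁, hH₁⟩ : ∃ H₁ : MvPolynomial (Fin (M + 1)) L, H₁ = map (algebraMap F L) H :=
    ⟨_, rfl⟩
  have hcoef : ∀ β, coeff β H₁ = algebraMap F L (coeff β H) := fun β => by
    rw [hH₁, coeff_map]
  have hH₁0 : H₁ ≠ 0 := fun h => by
    have h1 := hcoef α
    rw [h, coeff_zero, ← hc] at h1
    exact hc0 h1.symm
  rw [← hH₁, ← formHeight_smul hH₁0 (inv_ne_zero hc0), Int.toNat_of_nonneg hsum0]
  have h0 : C c⁻¹ * H₁ ≠ 0 := mul_ne_zero (by rw [Ne, C_eq_zero]; exact inv_ne_zero hc0) hH₁0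
  have hcf : ∀ β, coeff β (C c⁻¹ * H₁) = algebraMap F L (coeff β H / coeff α H) := by
    intro β
    rw [coeff_C_mul, hcoef, hc, map_div₀, div_eq_inv_mul]
  obtain ⟨T₁, hT₁⟩ := supp_gauss (K := K) h0
  obtain ⟨T₂, hT₂⟩ := exists_supp (k := K) H.support
    fun β => algebraMap F L (coeff β H / coeff α H)
  rw [formHeight_finset (T₁ ∪ T₂) fun P hP => Finset.mem_union_left _ (hT₁ P hP),
    Finset.sum_mul, ← Finset.sum_neg_distrib]
  have h1 : ∀ β ∈ H.support, hgt K (coeff β H / coeff α H) * (Module.finrank F L : ℤ) =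
      ∑ P ∈ T₁ ∪ T₂, max (-P.ord (algebraMap F L (coeff β H / coeff α H))) 0 := by
    intro β hβ
    rw [mul_comm, ← hgt_algebraMap (L := L)]
    exact hgt_finset _ _ fun Q hQ => Finset.mem_union_right _ (hT₂ β hβ Q hQ)
  rw [Finset.sum_congr rfl h1, Finset.sum_comm]
  refine Finset.sum_le_sum fun P _ => ?_
  obtain ⟨β, h2, h3⟩ := exists_gaussOrd P h0
  have hβ : β ∈ H.support := by
    rw [mem_support_iff]
    intro h4
    apply h2
    rw [hcf, h4, zero_div, map_zero]
  refine le_trans ?_ (Finset.single_le_sum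
    (f := fun β => max (-P.ord (algebraMap F L (coeff β H / coeff α H))) 0)
    (fun _ _ => le_max_right _ _) hβ)
  rw [← h3, hcf]
  exact le_max_left _ _

end Pool.Agent.U582.GV
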