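import Pool.Agent.U582.GV.Gau

/-!
# Counting the places of low multiplicity
-/

set_option autoImplicit false

namespace Pool.Agent.U582.GV

open MvPolynomial FF
open Pool.Agent.W603.LV Pool.Agent.W603.PV

variable {K : Type} [Field K] {L : Type} [Field L] [Algebra K L] {M : ℕ}

/-- The places at which `x` meets one of the divisors `D b = 0`, `b ∉ C`, with multiplicity less
than `A`. -/
def lowPlaces (K : Type) [Field K] {L : Type} [Field L] [Algebra K L] {M q : ℕ} (A : ℕ)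
    (d : Fin q → ℕ) (D : Fin q → MvPolynomial (Fin (M + 1)) L) (C : Finset (Fin q))
    (x : Fin (M + 1) → L) : Set (Place K L) :=
  {P | ∃ b, b ∉ C ∧ 0 < contact P (D b) (d b) x ∧ contact P (D b) (d b) x < A}

variable [IsAlgClosed K] [CharZero K] [IsFF K L]

theorem pht_nonneg {x : Fin (M + 1) → L} (hx : x ≠ 0) : 0 ≤ pht K x := by
  obtain ⟨j, hj⟩ := Function.ne_iff.1 hx
  have h1 := Pool.Agent.U582.GK.excess_sum (K := K) (d := 1) (y := x j) hx (fun P => by
    rw [Nat.cast_one, one_mul]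
    exact pord_le P hj) ∅
  rwa [Finset.sum_empty, Nat.cast_one, one_mul] at h1

/-- from integral points to the counting function of the places of low multiplicity -/
theorem low {q : ℕ} (c : ℕ) (d : Fin q → ℕ) (hd : ∀ b, 0 < d b) (C : Finset (Fin q))
    (hC : C ≠ Finset.univ) (D : Fin q → MvPolynomial (Fin (M + 1)) L) (hD0 : ∀ b, D b ≠ 0)
    (hD : ∀ b, (D b).IsHomogeneous (d b)) {x : Fin (M + 1) → L} (hx : x ≠ 0)
    (hxb : ∀ b, b ∉ C → aeval x (D b) ≠ 0) {A : ℕ} (hA : A = 2 * c * ∑ b, d b + 2 * c + 1)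
    (h : ∀ S : Finset (Place K L), (∀ b, b ∉ C → ∀ P ∉ S, contact P (D b) (d b) x = 0) →
      pht K x ≤ c * (max (canDeg K L + S.card) 0 + ∑ b, formHeight K (D b))) :
    (lowPlaces K A d D C x).Finite ∧
    pht K x ≤ A * (max (canDeg K L + (lowPlaces K A d D C x).ncard) 0 +
      ∑ b, formHeight K (D b)) := by
  classical
  have hT : ∀ b, ∃ T : Finset (Place K L), b ∉ C → (∀ P ∉ T, contact P (D b) (d b) x = 0) ∧
      ∑ P ∈ T, contact P (D b) (d b) x = d b * pht K x + formHeight K (D b) := by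
    intro b
    by_cases hb : b ∈ C
    · exact ⟨∅, fun h => absurd hb h⟩
    · obtain ⟨T, h1, h2⟩ := contact_sum (K := K) (hD b) hx (hxb b hb)
      exact ⟨T, fun _ => ⟨h1, h2⟩⟩
  choose T hT using hT
  have hnn : ∀ b, b ∉ C → ∀ P : Place K L, 0 ≤ contact P (D b) (d b) x := fun b hb P =>
    contact_nonneg P (hD b) (hxb b hb)
  obtain ⟨U, hU⟩ : ∃ U, U = Cᶜ.biUnion T := ⟨_, rfl⟩
  have hU0 : ∀ b, b ∉ C → ∀ P ∉ U, contact P (D b) (d b) x = 0 := by
    intro b hb P hP
    refine (hT b hb).1 P fun h1 => hP ?_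
    rw [hU]
    exact Finset.mem_biUnion.2 ⟨b, Finset.mem_compl.2 hb, h1⟩
  have hUs : ∀ b, b ∉ C → ∑ P ∈ U, contact P (D b) (d b) x =
      d b * pht K x + formHeight K (D b) := by
    intro b hb
    rw [← (hT b hb).2]
    symm
    refine Finset.sum_subset ?_ fun P _ hP => (hT b hb).1 P hP
    rw [hU]
    exact Finset.subset_biUnion_of_mem T (Finset.mem_compl.2 hb)
  obtain ⟨Lo, hLo⟩ : ∃ Lo, Lo = U.filter fun P => P ∈ lowPlaces K A d D C x := ⟨_, rfl⟩
  have hLoS : (Lo : Set (Place K L)) = lowPlaces K A d D C x := by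
    ext P
    rw [hLo]
    simp only [Finset.coe_filter, Set.mem_ofPred_eq]
    constructor
    · exact fun h => h.2
    · intro h1
      refine ⟨?_, h1⟩
      obtain ⟨b, hb, h2, -⟩ := h1
      by_contra h3
      rw [hU0 b hb P h3] at h2
      exact lt_irrefl _ h2
  obtain ⟨Hi, hHi⟩ : ∃ Hi, Hi = U.filter fun P => ∃ b, b ∉ C ∧ (A : ℤ) ≤ contact P (D b) (d b) x :=
    ⟨_, rfl⟩
  have hfin : (lowPlaces K A d D C x).Finite := by
    rw [← hLoS]
    exact Finset.finite_toSet Lo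
  have hncard : (lowPlaces K A d D C x).ncard = Lo.card := by
    rw [← hLoS, Set.ncard_coe_finset]
  refine ⟨hfin, ?_⟩
  have hp := pht_nonneg (K := K) hx
  have hfh : ∀ b, 0 ≤ formHeight K (D b) := fun b => formHeight_nonneg (hD0 b)
  have hfh0 : 0 ≤ ∑ b, formHeight K (D b) := Finset.sum_nonneg fun b _ => hfh b
  have hcardHi : (A : ℤ) * Hi.card ≤ (∑ b, d b : ℕ) * pht K x + ∑ b, formHeight K (D b) := by
    have h2 : ∀ P ∈ Hi, (A : ℤ) ≤ ∑ b ∈ Cᶜ, contact P (D b) (d b) x := by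
      intro P hP
      rw [hHi, Finset.mem_filter] at hP
      obtain ⟨-, b, hb, h3⟩ := hP
      exact h3.trans (Finset.single_le_sum (f := fun b => contact P (D b) (d b) x)
        (fun c hc => hnn c (Finset.mem_compl.1 hc) P) (Finset.mem_compl.2 hb))
    calc (A : ℤ) * Hi.card = ∑ P ∈ Hi, (A : ℤ) := by
          rw [Finset.sum_const, nsmul_eq_mul]
          ring
      _ ≤ ∑ P ∈ Hi, ∑ b ∈ Cᶜ, contact P (D b) (d b) x := Finset.sum_le_sum h2
      _ ≤ ∑ P ∈ U, ∑ b ∈ Cᶜ, contact P (D b) (d b) x := by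
          refine Finset.sum_le_sum_of_subset_of_nonneg ?_ fun P _ _ =>
            Finset.sum_nonneg fun b hb => hnn b (Finset.mem_compl.1 hb) P
          rw [hHi]
          exact Finset.filter_subset _ _
      _ = ∑ b ∈ Cᶜ, ∑ P ∈ U, contact P (D b) (d b) x := Finset.sum_comm
      _ = ∑ b ∈ Cᶜ, ((d b : ℤ) * pht K x + formHeight K (D b)) :=
          Finset.sum_congr rfl fun b hb => hUs b (Finset.mem_compl.1 hb)
      _ ≤ ∑ b, ((d b : ℤ) * pht K x + formHeight K (D b)) := by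
          refine Finset.sum_le_sum_of_subset_of_nonneg (Finset.subset_univ _) fun b _ _ => ?_
          have := hfh b
          positivity
      _ = (∑ b, d b : ℕ) * pht K x + ∑ b, formHeight K (D b) := by
          rw [Finset.sum_add_distrib, ← Finset.sum_mul]
          push_cast
          ring
  have h1 := h (Lo ∪ Hi) fun b hb P hP => by
    rw [Finset.mem_union, not_or] at hP
    by_cases hPU : P ∈ U
    · have h2 := hnn b hb P
      have h3 : ¬ (A : ℤ) ≤ contact P (D b) (d b) x := fun h3 => hP.2 (by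
        rw [hHi]
        exact Finset.mem_filter.2 ⟨hPU, b, hb, h3⟩)
      have h4 : ¬ 0 < contact P (D b) (d b) x := fun h4 => hP.1 (by
        rw [hLo]
        exact Finset.mem_filter.2 ⟨hPU, b, hb, h4, not_le.1 h3⟩)
      omega
    · exact hU0 b hb P hPU
  have h2 : ((Lo ∪ Hi).card : ℤ) ≤ Lo.card + Hi.card := by exact_mod_cast Finset.card_union_le Lo Hi
  rw [hncard]
  obtain ⟨s, hs⟩ : ∃ s : ℤ, s = ((∑ b, d b : ℕ) : ℤ) := ⟨_, rfl⟩
  have hs1 : 1 ≤ s := by
    obtain ⟨b, -, hb⟩ := Finset.exists_of_ssubset (Finset.ssubset_univ_iff.2 hC)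
    rw [hs]
    have : 1 ≤ ∑ b, d b := (hd b).trans_le
      (Finset.single_le_sum (f := d) (fun _ _ => Nat.zero_le _) (Finset.mem_univ b))
    exact_mod_cast this
  obtain ⟨X, hX⟩ : ∃ X, X = max (canDeg K L + Lo.card) 0 := ⟨_, rfl⟩
  have hX0 : 0 ≤ X := by rw [hX]; exact le_max_right _ _
  have h3 : max (canDeg K L + (Lo ∪ Hi).card) 0 ≤ X + Hi.card := by
    refine max_le ?_ (by positivity)
    have : canDeg K L + Lo.card ≤ X := by rw [hX]; exact le_max_left _ _
    omega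
  have hcast : (A : ℤ) = 2 * c * s + 2 * c + 1 := by
    rw [hs, hA]
    push_cast
    ring
  rw [← hX]
  rw [← hs, hcast] at hcardHi
  rw [hcast]
  obtain ⟨Y, hY⟩ : ∃ Y, Y = ∑ b, formHeight K (D b) := ⟨_, rfl⟩
  obtain ⟨H, hH⟩ : ∃ H : ℤ, H = (Hi.card : ℤ) := ⟨_, rfl⟩
  obtain ⟨a, ha⟩ : ∃ a : ℤ, a = (c : ℤ) := ⟨_, rfl⟩
  rw [← hY] at h1 hcardHi hfh0 ⊢
  rw [← hH] at hcardHi h3
  rw [← ha] at h1 hcardHi ⊢
  have ha0 : 0 ≤ a := by rw [ha]; exact Int.natCast_nonneg _
  have hH0 : 0 ≤ H := by rw [hH]; exact Int.natCast_nonneg _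
  -- `2 a H ≤ pht + Y`
  have h4 : 2 * a * H ≤ pht K x + Y := by
    by_contra hcon
    push Not at hcon
    have h5 : s * (pht K x + Y) < s * (2 * a * H) := mul_lt_mul_of_pos_left hcon (by omega)
    have h6 : (2 * a * s + 2 * a + 1) * H = s * (2 * a * H) + (2 * a + 1) * H := by ring
    have h7 : 0 ≤ (2 * a + 1) * H := by positivity
    have h8 : Y ≤ s * Y := le_mul_of_one_le_left hfh0 hs1
    nlinarith
  have h5 : pht K x ≤ a * (X + H + Y) :=
    h1.trans (mul_le_mul_of_nonneg_left (by linarith) ha0)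
  have h6 : pht K x ≤ 2 * a * (X + Y) + Y := by nlinarith
  have h7 : 0 ≤ (2 * a * s) * (X + Y) := by positivity
  nlinarith

end Pool.Agent.U582.GV
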