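import Pool.Agent.U582.GV.Mov

/-!
# Gauss orders and heights of forms over function fields, contact orders
-/

set_option autoImplicit false

namespace Pool.Agent.U582.GV

open MvPolynomial FF
open Pool.Agent.W603.LV Pool.Agent.W603.PV

variable {K : Type} [Field K] {L : Type} [Field L] [Algebra K L] {M : ℕ}

/-- The minimum of the orders of the nonzero coefficients. -/
noncomputable def gaussOrd (P : Place K L) (H : MvPolynomial (Fin (M + 1)) L) : ℤ :=
  ⨅ α : H.support, P.ord (H.coeff α)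

variable (K) in
/-- The height of the form `H`, that is, of the point given by its coefficients. -/
noncomputable def formHeight (H : MvPolynomial (Fin (M + 1)) L) : ℤ :=
  -∑ᶠ P : Place K L, gaussOrd P H

/-- The order of contact of the point `x` with the divisor `H = 0`, where `H` has degree `d`. -/
noncomputable def contact (P : Place K L) (H : MvPolynomial (Fin (M + 1)) L) (d : ℕ)
    (x : Fin (M + 1) → L) : ℤ :=
  P.ord (aeval x H) - d * pord P x - gaussOrd P H

theorem gaussOrd_le (P : Place K L) {H : MvPolynomial (Fin (M + 1)) L} {α : Fin (M + 1) →₀ ℕ}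
    (h : H.coeff α ≠ 0) : gaussOrd P H ≤ P.ord (H.coeff α) := by
  unfold gaussOrd
  exact ciInf_le (Finite.bddBelow_range _) (⟨α, mem_support_iff.2 h⟩ : H.support)

theorem exists_gaussOrd (P : Place K L) {H : MvPolynomial (Fin (M + 1)) L} (h : H ≠ 0) :
    ∃ α, H.coeff α ≠ 0 ∧ P.ord (H.coeff α) = gaussOrd P H := by
  obtain ⟨α, hα⟩ := MvPolynomial.ne_zero_iff.1 h
  have : Nonempty H.support := ⟨⟨α, mem_support_iff.2 hα⟩⟩
  obtain ⟨j, hj⟩ := exists_eq_ciInf_of_finite (f := fun α : H.support => P.ord (H.coeff α))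
  exact ⟨j, mem_support_iff.1 j.2, hj⟩

theorem ge_gaussOrd (P : Place K L) (H : MvPolynomial (Fin (M + 1)) L) (α : Fin (M + 1) →₀ ℕ) :
    Ge P (gaussOrd P H) (H.coeff α) := by
  by_cases h : H.coeff α = 0
  · exact Or.inl h
  · exact Or.inr (gaussOrd_le P h)

theorem ge_eval (P : Place K L) (x : Fin (M + 1) → L) {H : MvPolynomial (Fin (M + 1)) L} {d : ℕ}
    (hH : H.IsHomogeneous d) : Ge P (gaussOrd P H + d * pord P x) (aeval x H) := by
  rw [aeval_def, eval₂_eq']
  refine Ge.sum _ _ fun α hα => ?_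
  have h1 := (ge_gaussOrd P H α).mul (Ge.prod Finset.univ (fun a => x a ^ α a)
    (fun a => α a * pord P x) (fun a _ => (ge_pord P x a).pow (α a)))
  refine h1.mono (le_of_eq ?_)
  have h2 : ∑ a, α a = d := by
    have := hH (mem_support_iff.1 hα)
    rw [← this, Finsupp.weight_apply, Finsupp.sum_fintype _ _ (by simp)]
    simp
  rw [← Finset.sum_mul]
  congr 2
  exact_mod_cast h2.symm

theorem contact_nonneg (P : Place K L) {x : Fin (M + 1) → L} {H : MvPolynomial (Fin (M + 1)) L}
    {d : ℕ} (hH : H.IsHomogeneous d) (hx : aeval x H ≠ 0) : 0 ≤ contact P H d x := by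
  unfold contact
  rcases ge_eval P x hH with h | h
  · exact absurd h hx
  · omega

/-! ### Scaling -/

theorem gaussOrd_smul (P : Place K L) {H : MvPolynomial (Fin (M + 1)) L} (hH : H ≠ 0) {c : L}
    (hc : c ≠ 0) : gaussOrd P (C c * H) = P.ord c + gaussOrd P H := by
  have hcH : C c * H ≠ 0 := mul_ne_zero (by rwa [Ne, C_eq_zero]) hH
  obtain ⟨α, h1, h2⟩ := exists_gaussOrd P hH
  obtain ⟨β, h3, h4⟩ := exists_gaussOrd P hcH
  have h5 : ∀ γ, H.coeff γ ≠ 0 → P.ord ((C c * H).coeff γ) = P.ord c + P.ord (H.coeff γ) :=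
    fun γ hγ => by rw [coeff_C_mul, P.ord_mul hc hγ]
  have h6 : (C c * H).coeff α ≠ 0 := by
    rw [coeff_C_mul]
    exact mul_ne_zero hc h1
  have h7 : H.coeff β ≠ 0 := by
    rw [coeff_C_mul] at h3
    exact right_ne_zero_of_mul h3
  refine le_antisymm ?_ ?_
  · rw [← h2, ← h5 α h1]
    exact gaussOrd_le P h6
  · rw [← h4, h5 β h7]
    have := gaussOrd_le P h7
    omega

theorem contact_smul (P : Place K L) {H : MvPolynomial (Fin (M + 1)) L} (hH : H ≠ 0) {c : L}
    (hc : c ≠ 0) (d : ℕ) {x : Fin (M + 1) → L} (hx : aeval x H ≠ 0) :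
    contact P (C c * H) d x = contact P H d x := by
  unfold contact
  rw [gaussOrd_smul P hH hc, map_mul, aeval_C, Algebra.algebraMap_self, RingHom.id_apply,
    P.ord_mul hc hx]
  ring

variable [IsAlgClosed K] [CharZero K] [IsFF K L]

/-- the places at which the Gauss order is not zero -/
theorem supp_gauss {H : MvPolynomial (Fin (M + 1)) L} (hH : H ≠ 0) :
    ∃ T : Finset (Place K L), ∀ P, gaussOrd P H ≠ 0 → P ∈ T := by
  obtain ⟨T, hT⟩ := exists_supp (k := K) H.support (fun α => H.coeff α)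
  refine ⟨T, fun P hP => ?_⟩
  obtain ⟨α, h1, h2⟩ := exists_gaussOrd P hH
  exact hT α (mem_support_iff.2 h1) P (by rw [h2]; exact hP)

theorem formHeight_finset {H : MvPolynomial (Fin (M + 1)) L} (T : Finset (Place K L))
    (hT : ∀ P, gaussOrd P H ≠ 0 → P ∈ T) : formHeight K H = -∑ P ∈ T, gaussOrd P H := by
  unfold formHeight
  rw [finsum_eq_sum_of_support_subset (s := T)]
  intro P hP
  exact Finset.mem_coe.2 (hT P hP)

theorem formHeight_smul {H : MvPolynomial (Fin (M + 1)) L} (hH : H ≠ 0) {c : L} (hc : c ≠ 0) :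
    formHeight K (C c * H) = formHeight K H := by
  classical
  obtain ⟨T₁, h1⟩ := supp_gauss (K := K) hH
  obtain ⟨T₂, h2⟩ := supp_gauss (K := K)
    (mul_ne_zero (by rwa [Ne, C_eq_zero]) hH : C c * H ≠ 0)
  obtain ⟨T₃, h3⟩ := exists_supp (k := K) {()} (fun _ : Unit => c)
  rw [formHeight_finset (T₁ ∪ T₂ ∪ T₃) fun P hP => Finset.mem_union_left _
      (Finset.mem_union_right _ (h2 P hP)),
    formHeight_finset (T₁ ∪ T₂ ∪ T₃) fun P hP => Finset.mem_union_left _
      (Finset.mem_union_left _ (h1 P hP)),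
    Finset.sum_congr rfl fun P _ => gaussOrd_smul P hH hc, Finset.sum_add_distrib,
    sum_ord_finset c _ fun P hP => Finset.mem_union_right _
      (h3 () (Finset.mem_singleton_self _) P hP), zero_add]

/-- a form with a constant coefficient -/
theorem normalised {H : MvPolynomial (Fin (M + 1)) L} {α : Fin (M + 1) →₀ ℕ} {c : K}
    (hc : c ≠ 0) (hα : H.coeff α = algebraMap K L c) :
    (∀ P : Place K L, gaussOrd P H ≤ 0) ∧ (∀ β, hgt K (H.coeff β) ≤ formHeight K H) ∧
      ∃ N : Finset (Place K L), (∀ P ∉ N, gaussOrd P H = 0) ∧ (N.card : ℤ) ≤ formHeight K H := by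
  classical
  have hc' : H.coeff α ≠ 0 := by
    rw [hα, Ne, map_eq_zero]
    exact hc
  have hH : H ≠ 0 := fun h => hc' (by rw [h, coeff_zero])
  have h0 : ∀ P : Place K L, gaussOrd P H ≤ 0 := by
    intro P
    have h1 := gaussOrd_le P hc'
    rwa [hα, P.ord_const hc] at h1
  obtain ⟨T, hT⟩ := supp_gauss (K := K) hH
  refine ⟨h0, fun β => ?_, T.filter fun P => gaussOrd P H ≠ 0, fun P hP => ?_, ?_⟩
  · obtain ⟨T', hT'⟩ := exists_supp (k := K) {()} (fun _ : Unit => H.coeff β)
    have h1 : ∀ P : Place K L, P.ord (H.coeff β) ≠ 0 → P ∈ T ∪ T' := fun P hP =>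
      Finset.mem_union_right _ (hT' () (Finset.mem_singleton_self _) P hP)
    rw [hgt_finset _ _ h1, formHeight_finset (T ∪ T') fun P hP =>
      Finset.mem_union_left _ (hT P hP), ← Finset.sum_neg_distrib]
    refine Finset.sum_le_sum fun P _ => ?_
    have h2 := h0 P
    by_cases hβ : H.coeff β = 0
    · rw [hβ, P.ord_zero]
      exact max_le (by omega) (by omega)
    · have h3 := gaussOrd_le P hβ
      exact max_le (by omega) (by omega)
  · by_contra h1
    exact hP (Finset.mem_filter.2 ⟨hT P h1, h1⟩)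
  · rw [formHeight_finset T hT, ← Finset.sum_neg_distrib]
    calc ((T.filter fun P => gaussOrd P H ≠ 0).card : ℤ)
        = ∑ P ∈ T.filter (fun P => gaussOrd P H ≠ 0), (1 : ℤ) := by simp
      _ ≤ ∑ P ∈ T.filter (fun P => gaussOrd P H ≠ 0), -gaussOrd P H :=
          Finset.sum_le_sum fun P hP => by
            have h1 := (Finset.mem_filter.1 hP).2
            have h2 := h0 P
            omega
      _ ≤ ∑ P ∈ T, -gaussOrd P H :=
          Finset.sum_le_sum_of_subset_of_nonneg (Finset.filter_subset _ _) fun P _ _ => by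
            have := h0 P
            omega

theorem formHeight_nonneg {H : MvPolynomial (Fin (M + 1)) L} (hH : H ≠ 0) :
    0 ≤ formHeight K H := by
  obtain ⟨α, hα⟩ := MvPolynomial.ne_zero_iff.1 hH
  have h1 := (normalised (K := K) (H := C (H.coeff α)⁻¹ * H) (α := α) (c := 1) one_ne_zero
    (by rw [coeff_C_mul, inv_mul_cancel₀ hα, map_one])).2.1 α
  rw [formHeight_smul hH (inv_ne_zero hα)] at h1
  exact (hgt_nonneg _).trans h1

/-- the sum of the orders of contact -/
theorem contact_sum {H : MvPolynomial (Fin (M + 1)) L} {d : ℕ} (hHd : H.IsHomogeneous d)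
    {x : Fin (M + 1) → L} (hx : x ≠ 0) (hxH : aeval x H ≠ 0) :
    ∃ T : Finset (Place K L), (∀ P ∉ T, contact P H d x = 0) ∧
      ∑ P ∈ T, contact P H d x = d * pht K x + formHeight K H := by
  classical
  have hH : H ≠ 0 := fun h => hxH (by rw [h, map_zero])
  obtain ⟨T₀, hT₀⟩ := exists_supp (k := K) Finset.univ x
  obtain ⟨T₁, hT₁⟩ := exists_supp (k := K) {()} (fun _ : Unit => aeval x H)
  obtain ⟨T₂, hT₂⟩ := supp_gauss (K := K) hH
  have h1 : ∀ P : Place K L, pord P x ≠ 0 → P ∈ T₀ := by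
    intro P hP
    obtain ⟨j, -, hj⟩ := exists_pord P (Function.ne_iff.1 hx)
    exact hT₀ j (Finset.mem_univ j) P (by rw [hj]; exact hP)
  have h1' : ∀ P : Place K L, P.ord (aeval x H) ≠ 0 → P ∈ T₁ := fun P hP =>
    hT₁ () (Finset.mem_singleton_self _) P hP
  obtain ⟨T, hT⟩ : ∃ T, T = T₀ ∪ T₁ ∪ T₂ := ⟨_, rfl⟩
  have h2 : pht K x = - ∑ P ∈ T, pord P x := by
    unfold pht
    rw [finsum_eq_sum_of_support_subset (s := T)]
    intro P hP
    rw [hT]
    exact Finset.mem_coe.2 (Finset.mem_union_left _ (Finset.mem_union_left _ (h1 P hP)))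
  have h3 : ∑ P ∈ T, P.ord (aeval x H) = 0 := sum_ord_finset _ T fun P hP => by
    rw [hT]
    exact Finset.mem_union_left _ (Finset.mem_union_right _ (h1' P hP))
  have h4 : formHeight K H = -∑ P ∈ T, gaussOrd P H := formHeight_finset T fun P hP => by
    rw [hT]
    exact Finset.mem_union_right _ (hT₂ P hP)
  refine ⟨T, fun P hP => ?_, ?_⟩
  · rw [hT, Finset.mem_union, Finset.mem_union, not_or, not_or] at hP
    unfold contact
    rw [not_imp_comm.1 (h1' P) hP.1.2, not_imp_comm.1 (h1 P) hP.1.1,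
      not_imp_comm.1 (hT₂ P) hP.2]
    ring
  · unfold contact
    rw [Finset.sum_sub_distrib, Finset.sum_sub_distrib, h3, ← Finset.mul_sum, h2, h4]
    ring

end Pool.Agent.U582.GV
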