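import Pool.Agent.NH29.GK.Ah
import Pool.Agent.NH29.GN.Prj
import Pool.Agent.U582.GK.Orb
import Pool.Agent.W603.PV.Ext

/-!
# Heights of points on Zariski-general complements over function fields, moving coefficients
-/

set_option autoImplicit false

namespace Pool.Agent.U582.GV

open MvPolynomial Filter FF
open Pool.Agent.NH29.GN Pool.Agent.NH29.GK Pool.Agent.W603.LV Pool.Agent.W603.PV

/-- The point `x` over the function field `E` is a point of `V ∩ {F_c = 0, c ∈ C}` off `F_b = 0`,
`b ∉ C`, integral outside of `S`; `t` is the family of the coefficients of the forms, in `E`. -/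
structure Mvg (K : Type) [Field K] {k : Type} [Field k] {E : Type} [Field E] [Algebra K E]
    [Algebra k E] {M q : ℕ} (V : Set (MvPolynomial (Fin (M + 1)) k)) {d : Fin q → ℕ}
    (t : Idx M d → E) (C : Finset (Fin q)) (S : Finset (Place K E)) (x : Fin (M + 1) → E) :
    Prop where
  ne : x ≠ 0
  onV : ∀ H ∈ V, aeval x H = 0
  onC : ∀ c ∈ C, fv (K := E) (L := E) t x c = 0
  off : ∀ b, b ∉ C → fv (K := E) (L := E) t x b ≠ 0
  int : ∀ b, b ∉ C → ∀ Q ∉ S, Q.ord (fv (K := E) (L := E) t x b) = d b * pord Q x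

/-- one stratum -/
theorem mov_one {k : Type} [Field k] [CharZero k] {M n q : ℕ}
    {V : Set (MvPolynomial (Fin (M + 1)) k)} (hV : ∀ H ∈ V, ∃ e, H.IsHomogeneous e)
    {ℓ : Fin (n + 1) → MvPolynomial (Fin (M + 1)) k} (hℓ : ∀ j, (ℓ j).IsHomogeneous 1)
    (hN : NoZero V ℓ) (hq : n + 1 ≤ q) {d : Fin q → ℕ} (hd : ∀ i, 1 ≤ d i)
    (C : Finset (Fin q)) (hNum : Num2 n d C) :
    ∃ (Φ : MvPolynomial (Idx M d) k) (c : ℕ), Φ ≠ 0 ∧
      ∀ (K : Type) [Field K] [Algebra k K] [IsAlgClosed K]
      (E : Type) [Field E] [Algebra K E] [IsFF K E] [Algebra k E] [IsScalarTower k K E]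
      (t : Idx M d → E), aeval t Φ ≠ 0 → ∀ (S : Finset (Place K E))
      (x : Fin (M + 1) → E), Mvg K V t C S x →
      pht K x ≤ c * (max (canDeg K E + S.card) 0 + ∑ i, hgt K (t i)) := by
  classical
  by_contra hcon
  push Not at hcon
  obtain ⟨K', L', _, _, _, _, _, t', x', ht', hx'⟩ := stb2 k M q V d C (by
    intro Q hQ
    choose K iK iA iC E iE iAE iFF iAk iST t ht S x hx hlt using fun s : ℕ => hcon Q s hQ
    have hc0 : ∀ s, CharZero (K s) := fun s =>
      charZero_of_injective_algebraMap (algebraMap k (K s)).injective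
    obtain ⟨𝒰, h𝒰⟩ : ∃ 𝒰 : Ultrafilter ℕ, 𝒰 = hyperfilter ℕ := ⟨_, rfl⟩
    have hcof : ∀ R : ℕ, ∀ᶠ s in (𝒰 : Filter ℕ), R ≤ s := by
      intro R
      have h1 : ∀ᶠ s in (cofinite : Filter ℕ), R ≤ s := by
        rw [Nat.cofinite_eq_atTop]
        exact eventually_ge_atTop R
      rw [h𝒰]
      exact hyperfilter_le_cofinite h1
    have hX0 : ∀ s, (0 : ℤ) ≤ max (canDeg (K s) (E s) + (S s).card) 0 := fun s => le_max_right _ _
    have hT0 : ∀ s, (0 : ℤ) ≤ ∑ i, hgt (K s) (t s i) := fun s =>
      Finset.sum_nonneg fun i _ => hgt_nonneg _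
    have hpos : ∀ s, (0 : ℤ) < pht (K s) (x s) := fun s =>
      lt_of_le_of_lt (mul_nonneg (Int.natCast_nonneg s) (add_nonneg (hX0 s) (hT0 s))) (hlt s)
    let T : HFam 𝒰 E :=
      { h := fun s a => (hgt (K s) a : ℝ)
        H := fun s => (pht (K s) (x s) : ℝ)
        c := fun _ => 0
        nonneg := fun s a => by exact_mod_cast hgt_nonneg a
        zero := fun s => by
          rw [(hg (K s) (E s)).1]
          norm_num
        one := fun s => by
          rw [hgt_one]
          norm_num
        neg := fun s a => by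
          rw [add_zero]
          exact_mod_cast (hg (K s) (E s)).2.2.2.1 a
        inv := fun s a => by
          rw [add_zero, hgt_inv]
        add := fun s a b => by
          rw [add_zero]
          exact_mod_cast (hg (K s) (E s)).2.1 a b
        mul := fun s a b => by
          rw [add_zero]
          exact_mod_cast (hg (K s) (E s)).2.2.1 a b
        root := fun n s g a h => by
          rw [add_zero]
          exact_mod_cast (hg (K s) (E s)).2.2.2.2.1 n g a h
        small := fun n N => Eventually.of_forall fun s => by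
          rw [mul_zero]
          exact_mod_cast (hpos s).le }
    have hcoef : ∀ i, Sm T fun s => t s i := by
      intro i N
      filter_upwards [hcof N] with s hs
      change (N : ℝ) * (hgt (K s) (t s i) : ℝ) ≤ (pht (K s) (x s) : ℝ)
      have h1 : hgt (K s) (t s i) ≤ ∑ i, hgt (K s) (t s i) :=
        Finset.single_le_sum (f := fun i => hgt (K s) (t s i)) (fun _ _ => hgt_nonneg _)
          (Finset.mem_univ i)
      have h2 : (N : ℤ) * hgt (K s) (t s i) ≤ pht (K s) (x s) := by
        refine le_trans ?_ (hlt s).le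
        have h3 : (N : ℤ) ≤ s := by exact_mod_cast hs
        refine mul_le_mul h3 (h1.trans ?_) (hgt_nonneg _) (Int.natCast_nonneg s)
        linarith [hX0 s]
      exact_mod_cast h2
    have hconst : ∀ (f : ∀ s, K s), Sm T fun s => algebraMap (K s) (E s) (f s) := by
      intro f N
      refine Eventually.of_forall fun s => ?_
      change (N : ℝ) * (hgt (K s) (algebraMap (K s) (E s) (f s)) : ℝ) ≤ (pht (K s) (x s) : ℝ)
      rw [hgt_cst, Int.cast_zero, mul_zero]
      exact_mod_cast (hpos s).le
    obtain ⟨K', L', i1, i2, i3, i4, i5, t', x', h1, h2⟩ := abs sml ld k ℕ 𝒰 E T M q V d C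
      t x Q
      (fun a => by
        have h1 := hconst fun s => algebraMap k (K s) a
        have h2 : (fun s => algebraMap (K s) (E s) (algebraMap k (K s) a)) =
            fun s => algebraMap k (E s) a := by
          funext s
          exact (IsScalarTower.algebraMap_apply k (K s) (E s) a).symm
        rwa [h2] at h1)
      hcoef ht
      (fun s H hH => (hx s).onV H hH)
      (fun s c hc => (hx s).onC c hc)
      (fun s b hb => (hx s).off b hb)
      (fun s => (hx s).ne)
      (by
        intro a₀ ha₀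
        by_contra hall
        push Not at hall
        have h1 : ∀ᶠ s in (𝒰 : Filter ℕ), ∀ a, ((2 * (M + 1) : ℕ) : ℝ) *
            (hgt (K s) (x s a / x s a₀) : ℝ) ≤ (pht (K s) (x s) : ℝ) :=
          eventually_all.2 fun a => hall a (2 * (M + 1))
        obtain ⟨s, hs1, hs2⟩ := (h1.and ha₀).exists
        have h2 : (pht (K s) (x s) : ℝ) ≤ ∑ a, (hgt (K s) (x s a / x s a₀) : ℝ) := by
          exact_mod_cast (hg (K s) (E s)).2.2.2.2.2 M (x s) a₀ hs2
        have h3 : ((2 * (M + 1) : ℕ) : ℝ) * ∑ a, (hgt (K s) (x s a / x s a₀) : ℝ) ≤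
            (M + 1) * (pht (K s) (x s) : ℝ) := by
          rw [Finset.mul_sum]
          refine (Finset.sum_le_sum fun a _ => hs1 a).trans (le_of_eq ?_)
          rw [Finset.sum_const, Finset.card_univ, Fintype.card_fin, nsmul_eq_mul]
          push_cast
          ring
        have h4 : (0 : ℝ) < pht (K s) (x s) := by exact_mod_cast hpos s
        have h5 : (0 : ℝ) < (M : ℝ) + 1 := by positivity
        have h6 := mul_le_mul_of_nonneg_left h2 (by positivity : (0 : ℝ) ≤ ((2 * (M + 1) : ℕ) : ℝ))
        push_cast at h3 h6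
        nlinarith [mul_pos h5 h4])
      (by
        intro b₀ hb₀ S' hS' c hcS hc0' hrel
        have hneS : Nonempty {m // m ∈ S'} := hS'.to_subtype
        obtain ⟨B, hB0, hB⟩ := blk
        have hqne : ∀ s b, quo C (t s) (x s) b₀ b ≠ 0 := by
          intro s b
          unfold quo
          split_ifs with hb
          · exact one_ne_zero
          · exact div_ne_zero (pow_ne_zero _ ((hx s).off b hb))
              (pow_ne_zero _ ((hx s).off b₀ hb₀))
        have hqord : ∀ s, ∀ Q' ∉ S s, ∀ b, Q'.ord (quo C (t s) (x s) b₀ b) = 0 := by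
          intro s Q' hQ' b
          unfold quo
          split_ifs with hb
          · exact Q'.ord_one
          · rw [Q'.ord_div (pow_ne_zero _ ((hx s).off b hb))
              (pow_ne_zero _ ((hx s).off b₀ hb₀)), Q'.ord_pow, Q'.ord_pow,
              (hx s).int b hb Q' hQ', (hx s).int b₀ hb₀ Q' hQ']
            ring
        have hune : ∀ s (m : Fin q → ℤ), ∏ b, quo C (t s) (x s) b₀ b ^ m b ≠ 0 := fun s m =>
          Finset.prod_ne_zero_iff.2 fun b _ => zpow_ne_zero _ (hqne s b)
        have huord : ∀ s, ∀ Q' ∉ S s, ∀ m : Fin q → ℤ,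
            Q'.ord (∏ b, quo C (t s) (x s) b₀ b ^ m b) = 0 := by
          intro s Q' hQ' m
          have h1 : ∀ T : Finset (Fin q), Q'.ord (∏ b ∈ T, quo C (t s) (x s) b₀ b ^ m b) = 0 := by
            intro T
            induction T using Finset.induction_on with
            | empty => rw [Finset.prod_empty]; exact Q'.ord_one
            | insert a T ha ih =>
              rw [Finset.prod_insert ha, Q'.ord_mul (zpow_ne_zero _ (hqne s a))
                (Finset.prod_ne_zero_iff.2 fun b _ => zpow_ne_zero _ (hqne s b)), ih,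
                Q'.ord_zpow, hqord s Q' hQ' a, mul_zero, add_zero]
          exact h1 _
        have hev : ∀ᶠ s in (𝒰 : Filter ℕ), ∃ p : {m // m ∈ S'} × {m // m ∈ S'}, p.1 ≠ p.2 ∧
            hgt (K s) ((∏ b, quo C (t s) (x s) b₀ b ^ p.1.1 b) /
              ∏ b, quo C (t s) (x s) b₀ b ^ p.2.1 b) ≤ B S'.card *
              (max (canDeg (K s) (E s) + (S s).card) 0 +
                ∑ m : {m // m ∈ S'}, hgt (K s) (c m.1 s)) := by
          have h1 : ∀ᶠ s in (𝒰 : Filter ℕ), ∀ m : {m // m ∈ S'}, c m.1 s ≠ 0 :=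
            eventually_all.2 fun m => hc0' m.1 m.2
          filter_upwards [h1, hrel] with s hs1 hs2
          obtain ⟨i, j, hij, hle⟩ := hB (K s) (E s) (S s) {m // m ∈ S'} (fun m => c m.1 s)
            (fun m => ∏ b, quo C (t s) (x s) b₀ b ^ m.1 b) hs1 (fun m => hune s m.1)
            (fun Q' hQ' m => huord s Q' hQ' m.1) (by
              rw [← hs2, ← Finset.sum_coe_sort S'])
          rw [Fintype.card_coe] at hle
          exact ⟨(i, j), hij, hle⟩
        obtain ⟨⟨i, j⟩, hij⟩ := exists_ev 𝒰 _ hev
        refine ⟨i.1, i.2, j.1, j.2, ?_, ?_⟩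
        · obtain ⟨s, hs, -⟩ := hij.exists
          exact fun h => hs (Subtype.ext h)
        · intro N
          obtain ⟨b, hb⟩ : ∃ b : ℕ, (b : ℤ) = B S'.card := ⟨(B S'.card).toNat,
            Int.toNat_of_nonneg (hB0 _)⟩
          have h1 : ∀ᶠ s in (𝒰 : Filter ℕ), ∀ m : {m // m ∈ S'},
              ((2 * N * b * S'.card : ℕ) : ℝ) * (hgt (K s) (c m.1 s) : ℝ) ≤
                (pht (K s) (x s) : ℝ) := eventually_all.2 fun m => hcS m.1 m.2 _
          filter_upwards [hij, h1, hcof (2 * N * b)] with s hs1 hs2 hs3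
          have h2 : (hgt (K s) ((∏ b, quo C (t s) (x s) b₀ b ^ i.1 b) /
              ∏ b, quo C (t s) (x s) b₀ b ^ j.1 b) : ℝ) ≤ b *
              (((max (canDeg (K s) (E s) + (S s).card) 0 : ℤ) : ℝ) +
                ∑ m : {m // m ∈ S'}, (hgt (K s) (c m.1 s) : ℝ)) := by
            have h3 := hs1.2
            rw [← hb] at h3
            exact_mod_cast h3
          have h4 : ((2 * N * b : ℕ) : ℝ) * ((max (canDeg (K s) (E s) + (S s).card) 0 : ℤ) : ℝ) ≤
              (pht (K s) (x s) : ℝ) := by
            have h5 : ((2 * N * b : ℕ) : ℤ) * max (canDeg (K s) (E s) + (S s).card) 0 ≤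
                pht (K s) (x s) := by
              refine le_trans ?_ (hlt s).le
              refine mul_le_mul (by exact_mod_cast hs3) ?_ (hX0 s) (Int.natCast_nonneg s)
              linarith [hT0 s]
            exact_mod_cast h5
          have h6 : ((2 * N * b : ℕ) : ℝ) * ∑ m : {m // m ∈ S'}, (hgt (K s) (c m.1 s) : ℝ) ≤
              (pht (K s) (x s) : ℝ) := by
            have hcard : (0 : ℝ) < S'.card := by exact_mod_cast Finset.card_pos.2 hS'
            have h7 : ((2 * N * b * S'.card : ℕ) : ℝ) *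
                ∑ m : {m // m ∈ S'}, (hgt (K s) (c m.1 s) : ℝ) ≤
                S'.card * (pht (K s) (x s) : ℝ) := by
              rw [Finset.mul_sum]
              refine (Finset.sum_le_sum fun m _ => hs2 m).trans (le_of_eq ?_)
              rw [Finset.sum_const, Finset.card_univ, Fintype.card_coe, nsmul_eq_mul]
            have h8 : ((2 * N * b * S'.card : ℕ) : ℝ) = S'.card * ((2 * N * b : ℕ) : ℝ) := by
              push_cast
              ring
            rw [h8, mul_assoc] at h7
            exact le_of_mul_le_mul_left h7 hcard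
          change (N : ℝ) * (hgt (K s) ((∏ b, quo C (t s) (x s) b₀ b ^ i.1 b) /
              ∏ b, quo C (t s) (x s) b₀ b ^ j.1 b) : ℝ) ≤ (pht (K s) (x s) : ℝ)
          generalize ((max (canDeg (K s) (E s) + (S s).card) 0 : ℤ) : ℝ) = X at h2 h4
          generalize ∑ m : {m // m ∈ S'}, (hgt (K s) (c m.1 s) : ℝ) = Y at h2 h6
          have h9 := mul_le_mul_of_nonneg_left h2 (Nat.cast_nonneg N : (0 : ℝ) ≤ (N : ℝ))
          push_cast at h4 h6
          refine h9.trans ?_
          linarith)
    exact ⟨K', L', i1, i2, i3, i4, i5, t', x', h1, h2⟩)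
  exact stcP k K' L' M n q V hV ℓ hℓ hN hq d hd C hNum t' ht' x' hx'

end Pool.Agent.U582.GV
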